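import Pool.Agent.Run7.h569.Rect.Plane

set_option autoImplicit false

namespace Pool.Agent.Results.MP_f86233_co.RectanglesUpToFour

open Run7.h569.Rect

/-- The statement `S(4)`: every 2-colouring of the Euclidean plane contains a monochromatic
`m × n` rectangle with `m ∈ {1, 2}` and `n ∈ {1, 2, 3, 4}`, that is, the image under an isometry of
the plane of the four points `(0,0), (m,0), (0,n), (m,n)`, all of one colour. -/
theorem result : ∀ c : EuclideanSpace ℝ (Fin 2) → Bool,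
    ∃ m ∈ ({1, 2} : Set ℕ), ∃ n ∈ ({1, 2, 3, 4} : Set ℕ),
    ∃ (f : EuclideanSpace ℝ (Fin 2) ≃ᵢ EuclideanSpace ℝ (Fin 2)) (b : Bool),
      c (f !₂[(0 : ℝ), 0]) = b ∧ c (f !₂[(m : ℝ), 0]) = b ∧
      c (f !₂[(0 : ℝ), (n : ℝ)]) = b ∧ c (f !₂[(m : ℝ), (n : ℝ)]) = b := by
  intro c
  set e : ℂ ≃ₗᵢ[ℝ] EuclideanSpace ℝ (Fin 2) := Complex.orthonormalBasisOneI.repr with he
  obtain ⟨m, hm, n, hn, T, u, b, hu, h1, h2, h3, h4⟩ := complex_version (fun z => c (e z))
  obtain ⟨w, hw⟩ : ∃ w : Circle, (w : ℂ) = u :=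
    ⟨⟨u, by simpa [Submonoid.unitSphere] using hu⟩, rfl⟩
  rw [← hw] at h1 h2 h3 h4
  have hs : ∀ x y : ℝ, e.symm !₂[x, y] = (x : ℂ) + y * Complex.I := by
    intro x y
    rw [he, Complex.orthonormalBasisOneI_repr_symm_apply]
    simp
  set f : EuclideanSpace ℝ (Fin 2) ≃ᵢ EuclideanSpace ℝ (Fin 2) := e.symm.toIsometryEquiv.trans
    ((((rotation w).toIsometryEquiv).trans
      (IsometryEquiv.addLeft T)).trans e.toIsometryEquiv) with hf
  have hfx : ∀ x y : ℝ, f !₂[x, y] = e (T + w * ((x : ℂ) + y * Complex.I)) := by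
    intro x y
    change e (T + rotation w (e.symm !₂[x, y])) = _
    rw [hs, rotation_apply]
  refine ⟨m, hm, n, hn, f, b, ?_, ?_, ?_, ?_⟩
  · rw [hfx]; simpa using h1
  · rw [hfx]; simpa using h2
  · rw [hfx]; simpa using h3
  · rw [hfx]; simpa using h4

end Pool.Agent.Results.MP_f86233_co.RectanglesUpToFour
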